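import Pool.Agent.Q218.HB.Stm5

/-! Job BEL of project HB3: Bessel's inequality for the restrictions to a box. -/

set_option autoImplicit false

namespace Pool.Agent.Q65.HB3

open Pool.Agent.Q218.HB

section aux

variable {Z : Type}

lemma memlp {f : Z → ℂ} (h : Summable fun x => ‖f x‖ ^ 2) : Memℓp f 2 := by
  refine memℓp_gen ?_
  simpa using h

/-- `ℓ²` element -/
noncomputable def mkl (f : Z → ℂ) (h : Summable fun x => ‖f x‖ ^ 2) : lp (fun _ : Z => ℂ) 2 :=
  ⟨f, memlp h⟩

lemma mkl_ap (f : Z → ℂ) (h : Summable fun x => ‖f x‖ ^ 2) (z : Z) : mkl f h z = f z := rfl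

lemma inn (u v : lp (fun _ : Z => ℂ) 2) :
    HasSum (fun x => (starRingEnd ℂ) (u x) * v x) (inner ℂ u v) := by
  have h := lp.hasSum_inner (𝕜 := ℂ) u v
  have he : (fun x => (starRingEnd ℂ) (u x) * v x) = fun x => inner ℂ (u x) (v x) := by
    funext x
    rw [RCLike.inner_apply, mul_comm]
  rw [he]
  exact h

lemma ortho' {J : Type} (φ : J → Z → ℂ) (h1 : ∀ j, HasSum (fun x => ‖φ j x‖ ^ 2) 1)
    (h2 : ∀ i j, i ≠ j → HasSum (fun x => (starRingEnd ℂ) (φ i x) * φ j x) 0) :
    Orthonormal ℂ fun j => mkl (φ j) (h1 j).summable := by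
  constructor
  · intro j
    have h3 := inn (mkl (φ j) (h1 j).summable) (mkl (φ j) (h1 j).summable)
    have h4 : HasSum (fun x => ((‖φ j x‖ ^ 2 : ℝ) : ℂ)) ((1 : ℝ) : ℂ) :=
      Complex.hasSum_ofReal.2 (h1 j)
    have h5 : (inner ℂ (mkl (φ j) (h1 j).summable) (mkl (φ j) (h1 j).summable) : ℂ)
        = ((1 : ℝ) : ℂ) := by
      refine h3.unique ?_
      have he : (fun x => (starRingEnd ℂ) (mkl (φ j) (h1 j).summable x) *
          mkl (φ j) (h1 j).summable x) = fun x => ((‖φ j x‖ ^ 2 : ℝ) : ℂ) := by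
        funext x
        rw [mkl_ap, ← Complex.normSq_eq_conj_mul_self, Complex.normSq_eq_norm_sq]
      rw [he]
      exact h4
    have h6 : (‖mkl (φ j) (h1 j).summable‖ : ℝ) ^ 2 = 1 := by
      rw [@norm_sq_eq_re_inner ℂ, h5]
      simp
    exact (pow_eq_one_iff_of_nonneg (norm_nonneg _) two_ne_zero).1 h6
  · intro i j hij
    exact (inn _ _).unique (h2 i j hij)

end aux

/-- Job BEL. -/
theorem bel : S_BEL := by
  classical
  intro d n _ J _ ψ h1 h2 f
  set ι : Tor d n → (Fin d → ℤ) := fun x i => ((x i).val : ℤ) with hι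
  have hinj : Function.Injective ι := by
    intro x y hxy
    funext i
    have h3 := congrFun hxy i
    simp only [hι] at h3
    exact ZMod.val_injective n (by exact_mod_cast h3)
  set v : lp (fun _ : Fin d → ℤ => ℂ) 2 :=
    ∑ x : Tor d n, lp.single 2 (ι x) ((starRingEnd ℂ) (f x)) with hv
  have hvι : ∀ y : Tor d n, v (ι y) = (starRingEnd ℂ) (f y) := by
    intro y
    rw [hv, lp.coeFn_sum, Finset.sum_apply, Finset.sum_eq_single y]
    · rw [lp.single_apply_self]
    · intro x _ hx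
      rw [lp.single_apply_ne]
      intro h
      exact hx (hinj h).symm
    · intro h
      exact absurd (Finset.mem_univ _) h
  have hnorm : ‖v‖ ^ 2 = ∑ x, ‖f x‖ ^ 2 := by
    have h3 : (inner ℂ v v : ℂ) = ((∑ x, ‖f x‖ ^ 2 : ℝ) : ℂ) := by
      conv_lhs => rw [hv, inner_sum]
      rw [← hv, Complex.ofReal_sum]
      refine Finset.sum_congr rfl fun x _ => ?_
      rw [lp.inner_single_right, hvι, RCLike.inner_apply, mul_comm,
        ← Complex.normSq_eq_conj_mul_self, Complex.normSq_eq_norm_sq, RCLike.norm_conj]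
    rw [@norm_sq_eq_re_inner ℂ, h3]
    exact Complex.ofReal_re _
  have hb := (ortho' ψ h1 h2).sum_inner_products_le (s := Finset.univ) v
  rw [hnorm] at hb
  refine le_trans (le_of_eq ?_) hb
  refine Finset.sum_congr rfl fun j _ => ?_
  congr 1
  have h4 : (inner ℂ (mkl (ψ j) (h1 j).summable) v : ℂ)
      = (starRingEnd ℂ) (∑ x, f x * ψ j (ι x)) := by
    rw [hv, inner_sum, map_sum]
    refine Finset.sum_congr rfl fun x _ => ?_
    rw [lp.inner_single_right, mkl_ap, RCLike.inner_apply, map_mul]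
  rw [h4, RCLike.norm_conj]

end Pool.Agent.Q65.HB3
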